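import Pool.Agent.Lib.MP_087efe_co.DT.Fvec

/-!
MP_087efe_co: a geometric deep vertex truncation of a 4-polytope with `n` vertices, `n` large, has
at most `6 n - (12 - ε) √n` edges.
-/

namespace Pool.Agent.Results.MP_087efe_co.DeepTruncation

open Pool.Agent.Lib.MP_087efe_co

theorem result (ε : ℝ) (hε : 0 < ε) :
    ∃ n₀ : ℕ, ∀ P : Set (EuclideanSpace ℝ (Fin 4)), IsDeepTruncation P → n₀ ≤ fnum P 0 →
      (fnum P 1 : ℝ) ≤ 6 * fnum P 0 - (12 - ε) * √(fnum P 0) := by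
  classical
  obtain ⟨t, ht⟩ := DT.free
  obtain ⟨C, hC⟩ := DT.count (show 0 < ε / 48 by positivity) t
  obtain ⟨n, hn⟩ := exists_nat_ge ((12 / ε * (3 + |C|) + 1) ^ 2)
  refine ⟨n, fun P hP hn' => ?_⟩
  obtain ⟨X, h, hd, ho, h1, h2⟩ := DT.exists_cfg hP
  have h3 := hC _ (DT.tang X h) (ht X h hd ho) X
  have h4 : (fnum P 1 + 6 * X.card : ℝ) ≤ 6 * fnum P 0 := by exact_mod_cast h1
  have h5 := DT.arith (s := √(fnum P 0)) hε (Nat.cast_nonneg X.card)
    (Real.le_sqrt_of_sq_le (hn.trans (by exact_mod_cast hn')))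
    (by rw [Real.sq_sqrt (Nat.cast_nonneg _)]; exact h2.trans h3)
  linarith

end Pool.Agent.Results.MP_087efe_co.DeepTruncation
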