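import Pool.Agent.Lib.MP_087efe_co.Two

/-!
MP_087efe_co: for `n ≥ 13` every vector `(n, m, m, n)` with
`4 n - 10 ≤ m ≤ max (6 n - 12 √n - 113 n^(1/8), (9 n - 34) / 2, 4 n - 8)` is the f-vector of a
2-simple 2-simplicial 4-polytope.
-/

namespace Pool.Agent.Results.MP_087efe_co.Region

open Pool.Agent.Lib.MP_087efe_co

theorem result (n m : ℕ) (hn : 13 ≤ n) (hlow : 4 * n ≤ m + 10)
    (hup : (m : ℝ) ≤ max (6 * n - 12 * √n - 113 * √√√n) (max ((9 * n - 34) / 2) (4 * n - 8))) :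
    ∃ P : Set (EuclideanSpace ℝ (Fin 4)), IsPolytope P ∧ TwoSimple P ∧ TwoSimplicial P ∧
      fnum P 0 = n ∧ fnum P 1 = m ∧ fnum P 2 = m ∧ fnum P 3 = n := by
  obtain ⟨a, rfl⟩ : ∃ a, n = a + 5 := ⟨n - 5, by omega⟩
  obtain ⟨g, rfl⟩ : ∃ g, m = 4 * a + 10 + g := ⟨m - (4 * a + 10), by omega⟩
  have e2 : √√√((a + 5 : ℕ) : ℝ) ^ 2 = √√((a + 5 : ℕ) : ℝ) := Real.sq_sqrt (Real.sqrt_nonneg _)
  have e4 : √√√((a + 5 : ℕ) : ℝ) ^ 4 = √((a + 5 : ℕ) : ℝ) := by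
    rw [show ∀ x : ℝ, x ^ 4 = (x ^ 2) ^ 2 from fun x => by ring, e2,
      Real.sq_sqrt (Real.sqrt_nonneg _)]
  rcases le_max_iff.mp hup with h | h
  · refine (gd_big2 (q := √√√(a + 5 : ℕ)) (Real.sqrt_nonneg _) ?_ ?_).poly
    · rw [show ∀ x : ℝ, x ^ 8 = (x ^ 4) ^ 2 from fun x => by ring, e4,
        Real.sq_sqrt (Nat.cast_nonneg _)]
      push_cast
      rfl
    · rw [e4]
      push_cast at h ⊢
      linarith
  push_cast at h
  rcases le_max_iff.mp h with h | h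
  · have : (2 * g + 9 : ℝ) ≤ a := by linarith
    exact (gd_lin (by exact_mod_cast this)).poly
  · have : (g : ℝ) ≤ 2 := by linarith
    exact (gd_low (by exact_mod_cast this) (by omega)).poly

end Pool.Agent.Results.MP_087efe_co.Region
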